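import Pool.Agent.N463.MI.Stm

/-!
# MI/A04: the logarithmic series of `∏ (1 + z q^k)`
-/

set_option autoImplicit false

namespace Pool.Agent.N403.MI.A04

open Pool.Agent.N463.MI

/-- the terms of the double series -/
noncomputable def ff (z q : ℂ) (p : ℕ × ℕ) : ℂ :=
  (-1) ^ p.2 * z ^ (p.2 + 1) / ((p.2 : ℂ) + 1) * (q ^ (p.2 + 1)) ^ (p.1 + 1)

lemma ff_norm (z q : ℂ) (hz : ‖z‖ ≤ 1) (hq : ‖q‖ < 1) (p : ℕ × ℕ) :
    ‖ff z q p‖ ≤ ‖q‖ ^ p.1 * ‖q‖ ^ p.2 := by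
  obtain ⟨k, j⟩ := p
  have h0 := norm_nonneg q
  rw [ff, norm_mul, norm_div, norm_mul, norm_pow, norm_neg, norm_one, one_pow, one_mul, norm_pow,
    norm_pow, norm_pow, ← pow_mul, ← pow_add]
  have h1 : ‖(j : ℂ) + 1‖ = (j : ℝ) + 1 := by
    have := Complex.norm_natCast (j + 1)
    push_cast at this
    exact this
  show ‖z‖ ^ (j + 1) / ‖(j : ℂ) + 1‖ * ‖q‖ ^ ((j + 1) * (k + 1)) ≤ ‖q‖ ^ (k + j)
  rw [h1]
  have h2 : ‖z‖ ^ (j + 1) / ((j : ℝ) + 1) ≤ 1 := by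
    rw [div_le_one (by positivity)]
    calc ‖z‖ ^ (j + 1) ≤ 1 := pow_le_one₀ (norm_nonneg _) hz
      _ ≤ (j : ℝ) + 1 := by linarith [(Nat.cast_nonneg j : (0 : ℝ) ≤ j)]
  have h3 : ‖q‖ ^ ((j + 1) * (k + 1)) ≤ ‖q‖ ^ (k + j) :=
    pow_le_pow_of_le_one h0 hq.le (by nlinarith)
  calc ‖z‖ ^ (j + 1) / ((j : ℝ) + 1) * ‖q‖ ^ ((j + 1) * (k + 1)) ≤ 1 * ‖q‖ ^ (k + j) :=
        mul_le_mul h2 h3 (by positivity) zero_le_one
    _ = _ := one_mul _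

lemma ff_summable (z q : ℂ) (hz : ‖z‖ ≤ 1) (hq : ‖q‖ < 1) : Summable (ff z q) := by
  have h0 := norm_nonneg q
  have h1 : Summable (fun k : ℕ => ‖q‖ ^ k) := summable_geometric_of_lt_one h0 hq
  have h2 : Summable (fun p : ℕ × ℕ => ‖q‖ ^ p.1 * ‖q‖ ^ p.2) :=
    h1.mul_of_nonneg h1 (fun k => by positivity) (fun k => by positivity)
  exact Summable.of_norm_bounded h2 (ff_norm z q hz hq)

lemma row (z q : ℂ) (hz : ‖z‖ ≤ 1) (hq : ‖q‖ < 1) (k : ℕ) :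
    HasSum (fun j : ℕ => ff z q (k, j)) (Complex.log (1 + z * q ^ (k + 1))) := by
  have hn : ‖-(z * q ^ (k + 1))‖ < 1 := by
    rw [norm_neg, norm_mul, norm_pow]
    calc ‖z‖ * ‖q‖ ^ (k + 1) ≤ 1 * ‖q‖ ^ (k + 1) := by gcongr
      _ = ‖q‖ ^ (k + 1) := one_mul _
      _ < 1 := pow_lt_one₀ (norm_nonneg _) hq (Nat.succ_ne_zero k)
  have h := (Complex.hasSum_taylorSeries_neg_log' hn).neg
  rw [neg_neg, sub_neg_eq_add] at h
  have h5 : (fun j : ℕ => ff z q (k, j)) =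
      fun j : ℕ => -((-(z * q ^ (k + 1))) ^ (j + 1) / ((j : ℂ) + 1)) := by
    funext j
    show (-1) ^ j * z ^ (j + 1) / ((j : ℂ) + 1) * (q ^ (j + 1)) ^ (k + 1) = _
    rw [← pow_mul, mul_comm (j + 1) (k + 1), pow_mul, neg_pow (z * q ^ (k + 1)), mul_pow,
      pow_succ (-1 : ℂ)]
    ring
  rw [h5]
  exact h

lemma col (z q : ℂ) (hq : ‖q‖ < 1) (j : ℕ) :
    HasSum (fun k : ℕ => ff z q (k, j))
      (((-1) ^ j * z ^ (j + 1) / ((j : ℂ) + 1)) * (q ^ (j + 1) / (1 - q ^ (j + 1)))) := by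
  have hn : ‖q ^ (j + 1)‖ < 1 := by
    rw [norm_pow]
    exact pow_lt_one₀ (norm_nonneg _) hq (Nat.succ_ne_zero j)
  have h := ((hasSum_geometric_of_norm_lt_one hn).mul_left (q ^ (j + 1))).mul_left
    ((-1) ^ j * z ^ (j + 1) / ((j : ℂ) + 1))
  have h5 : (fun k : ℕ => ff z q (k, j)) = fun k : ℕ =>
      ((-1) ^ j * z ^ (j + 1) / ((j : ℂ) + 1)) * (q ^ (j + 1) * (q ^ (j + 1)) ^ k) := by
    funext k
    show (-1) ^ j * z ^ (j + 1) / ((j : ℂ) + 1) * (q ^ (j + 1)) ^ (k + 1) = _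
    rw [pow_succ' (q ^ (j + 1)) k]
  rw [h5, div_eq_mul_inv (q ^ (j + 1))]
  exact h

theorem t_A04 : A04 := by
  intro z q hz hq
  have hs := (ff_summable z q hz hq).hasSum
  have h1 := hs.prod_fiberwise (row z q hz hq)
  have h2 : HasSum (fun p : ℕ × ℕ => ff z q p.swap) (∑' p, ff z q p) :=
    (Equiv.prodComm ℕ ℕ).hasSum_iff.2 hs
  have h3 := h2.prod_fiberwise (fun j => col z q hq j)
  refine ⟨h3.summable, ?_⟩
  rw [h3.tsum_eq, ← h1.tsum_eq, PP]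
  refine (Complex.cexp_tsum_eq_tprod (f := fun k : ℕ => 1 + z * q ^ (k + 1)) ?_ h1.summable).symm
  intro k h0
  have hn : ‖z * q ^ (k + 1)‖ < 1 := by
    rw [norm_mul, norm_pow]
    calc ‖z‖ * ‖q‖ ^ (k + 1) ≤ 1 * ‖q‖ ^ (k + 1) := by gcongr
      _ = ‖q‖ ^ (k + 1) := one_mul _
      _ < 1 := pow_lt_one₀ (norm_nonneg _) hq (Nat.succ_ne_zero k)
  have h4 : z * q ^ (k + 1) = -1 := by linear_combination h0
  rw [h4, norm_neg, norm_one] at hn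
  exact lt_irrefl _ hn

end Pool.Agent.N403.MI.A04
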